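import Pool.Agent.Gab7_h87.Ax
import Pool.Agent.Gab6_h87.Orient
import Pool.Agent.Gab6_h87.Six

/-!
# From the orderings with good levels to rank seven
-/

set_option autoImplicit false

namespace Pool.Agent.Gab7_h87

open Pool.Agent.Gabow87
open Pool.Agent.Gab6_h87 (bp_lt bp_ge nm nm_left nm_right nm_inj image_nm_left
  image_nm_right firstL_full firstR_full start)

section Tot

variable {α : Type*} [DecidableEq α]

/-- every set of at most three elements of the second basis is reached by a chain -/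
theorem totV {P : Finset α → Prop} (hP : SymExch P) {B B' : Finset α} (hB : P B) (hB' : P B')
    (hd : Disjoint B B') (V : Finset α) (hV : V ⊆ B') (h3 : V.card ≤ 3) :
    ∃ X ⊆ B, ∃ m, GCh P B B' m X V := by
  rcases Nat.lt_or_ge V.card 1 with h | h
  · have : V = ∅ := Finset.card_eq_zero.mp (by omega)
    subst this
    exact ⟨∅, Finset.empty_subset _, 0, rfl, rfl⟩
  rcases Nat.lt_or_ge V.card 2 with h2 | h2
  · obtain ⟨y, rfl⟩ := Finset.card_eq_one.mp (show V.card = 1 by omega)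
    have hy : y ∈ B' := hV (Finset.mem_singleton_self _)
    have hyB : y ∉ B := fun h => Finset.disjoint_left.mp hd h hy
    obtain ⟨e, he, heB, h1, h4⟩ := hP B B' hB hB' y hy hyB
    refine ⟨{e}, Finset.singleton_subset_iff.mpr he, 1, gch_one ⟨?_, ?_⟩⟩
    · rwa [Finset.sdiff_singleton_eq_erase, Finset.union_comm, ← Finset.insert_eq]
    · rwa [Finset.sdiff_singleton_eq_erase, Finset.union_comm, ← Finset.insert_eq]
  rcases Nat.lt_or_ge V.card 3 with h4 | h4
  · obtain ⟨y₁, y₂, hy, rfl⟩ := Finset.card_eq_two.mp (show V.card = 2 by omega)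
    obtain ⟨x, hx, e, he, hxe, hg, hs⟩ := pair_total hP hB hB' hd
      (hV (Finset.mem_insert_self _ _)) (hV (Finset.mem_insert_of_mem
        (Finset.mem_singleton_self _))) hy
    refine ⟨{x, e}, ?_, 2, ?_⟩
    · intro t ht
      rw [Finset.mem_insert, Finset.mem_singleton] at ht
      rcases ht with rfl | rfl <;> assumption
    · rcases hs with hs | hs
      · exact gch_two hxe hy hs hg
      · rw [Finset.pair_comm y₁ y₂] at hg ⊢
        exact gch_two hxe hy.symm hs hg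
  · have h5 : V.card = 3 := by omega
    obtain ⟨x₁, hx1, x₂, hx2, x₃, hx3, n12, n13, n23, y₁, y₂, y₃, hYe, g1, g2, g3⟩ :=
      triple_total hP hB hB' hd hV h5
    subst hYe
    obtain ⟨m12, m13, m23⟩ := distinct3 h5
    refine ⟨{x₁, x₂, x₃}, ?_, 3, gch_three n12 n13 n23 m12 m13 m23 g1 g2 g3⟩
    intro t
    simp only [Finset.mem_insert, Finset.mem_singleton]
    rintro (rfl | rfl | rfl) <;> assumption

/-- every set of at most three elements of the first basis is reached by a chain -/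
theorem totX {P : Finset α → Prop} (hP : SymExch P) {B B' : Finset α} (hB : P B) (hB' : P B')
    (hd : Disjoint B B') (X : Finset α) (hX : X ⊆ B) (h3 : X.card ≤ 3) :
    ∃ V ⊆ B', ∃ m, GCh P B B' m X V := by
  obtain ⟨V, hV, m, hm⟩ := totV hP hB' hB hd.symm X hX h3
  exact ⟨V, hV, m, GCh.symm _ _ _ hm⟩

end Tot

/-- orderings from two disjoint chains -/
theorem of_two {α : Type*} {M : Matroid α} {r k l : ℕ} (hr : k + l ≤ r) {b b' : Fin r → α}
    (hb : Function.Injective b) (hb' : Function.Injective b')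
    (hB : M.IsBase (Set.range b)) (hB' : M.IsBase (Set.range b'))
    {X X' V V' : Finset (Idx r)} (hX : X ⊆ B₀ r) (hX' : X' ⊆ B₀ r) (hV : V ⊆ B₁ r)
    (hV' : V' ⊆ B₁ r) (hXX : Disjoint X X') (hVV : Disjoint V V')
    (h : GCh (BP M (Sum.elim b b')) (B₀ r) (B₁ r) k X V)
    (h' : GCh (BP M (Sum.elim b b')) (B₀ r) (B₁ r) l X' V') :
    ∃ σ σ' : Equiv.Perm (Fin r), ∀ i : Fin (r + r), (i.val % r ≤ k ∨ r ≤ i.val % r + l) →
      M.IsBase (block (b ∘ σ) (b' ∘ σ') i) := by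
  have hA := base_B₀ (b' := b') hb hB
  have hA' := base_B₁ (b := b) hb' hB'
  have h0 : Good (BP M (Sum.elim b b')) (B₀ r) (B₁ r) ∅ ∅ := by
    constructor
    · simpa using hA
    · simpa using hA'
  obtain ⟨x, y, hxi, hyi, hxX, hyV, hm⟩ := GCh.seq h0 k X V hX hV h
  obtain ⟨x', y', hxi', hyi', hxX', hyV', hm'⟩ := GCh.seq h0 l X' V' hX' hV' h'
  have i1 : Function.Injective (Sum.elim x x') := by
    refine hxi.sumElim hxi' fun i j hij => ?_
    have h1 : (Sum.inl (x i) : Idx r) ∈ X := by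
      rw [← hxX, mem_LX]
      exact ⟨i, i.isLt, rfl⟩
    have h2 : (Sum.inl (x' j) : Idx r) ∈ X' := by
      rw [← hxX', mem_LX]
      exact ⟨j, j.isLt, rfl⟩
    rw [hij] at h1
    exact Finset.disjoint_left.mp hXX h1 h2
  have i2 : Function.Injective (Sum.elim y y') := by
    refine hyi.sumElim hyi' fun i j hij => ?_
    have h1 : (Sum.inr (y i) : Idx r) ∈ V := by
      rw [← hyV, mem_RY]
      exact ⟨i, i.isLt, rfl⟩
    have h2 : (Sum.inr (y' j) : Idx r) ∈ V' := by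
      rw [← hyV', mem_RY]
      exact ⟨j, j.isLt, rfl⟩
    rw [hij] at h1
    exact Finset.disjoint_left.mp hVV h1 h2
  obtain ⟨σ, σ', -, -, hblocks⟩ := orderings_of_chains (k := k) (l := l) hr (M := M)
    (b := b) (b' := b') (x := Sum.elim x x') (y := Sum.elim y y') i1 i2
    (fun m hmk => hm m hmk) (fun m hmk _ => hm' m hmk)
  exact ⟨σ, σ', hblocks⟩

/-- the orderings are refined such that all blocks starting in the first basis are bases -/
theorem refine_near {α : Type*} (M : Matroid α) {r : ℕ} (b b' : Fin r → α)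
    (hb : Function.Injective b)
    (hB : M.IsBase (Set.range b)) (hB' : M.IsBase (Set.range b')) (Q : ℕ → Prop)
    (h : ∃ σ σ' : Equiv.Perm (Fin r), ∀ i : Fin (r + r), Q (i.val % r) →
      M.IsBase (block (b ∘ σ) (b' ∘ σ') i)) :
    ∃ σ σ' : Equiv.Perm (Fin r), ∀ i : Fin (r + r), (i.val ≤ r ∨ Q (i.val % r)) →
      M.IsBase (block (b ∘ σ) (b' ∘ σ') i) := by
  obtain ⟨τ, τ', hτ⟩ := h
  have hb1 : Function.Injective (b ∘ τ) := hb.comp τ.injective
  have hB1 : M.IsBase (Set.range (b ∘ τ)) := by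
    rw [τ.surjective.range_comp]
    exact hB
  have hB1' : M.IsBase (Set.range (b' ∘ τ')) := by
    rw [τ'.surjective.range_comp]
    exact hB'
  obtain ⟨σ, σ', h1, -, h3⟩ := Pool.Agent.Near48.near_refine M (b ∘ τ) (b' ∘ τ') hb1 hB1 hB1'
  refine ⟨τ * σ, τ' * σ', fun i hi => ?_⟩
  rcases hi with hi | hi
  · exact h1 i hi
  · exact h3 (i.val % r) (fun j hj => hτ j (by rw [hj]; exact hi)) i rfl

/-- the problem whose solution is excluded by a certificate -/
theorem no_cx {α : Type*} {M : Matroid α} {r : ℕ} (hr : 0 < r) {b b' : Fin r → α}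
    (hb : Function.Injective b) (hb' : Function.Injective b')
    (hB : M.IsBase (Set.range b)) (hB' : M.IsBase (Set.range b')) (m0 m1 : ℕ)
    (hs : List (ℕ × ℕ)) (σ σ' : Equiv.Perm (Fin r))
    (h0 : ∀ i < r, m0.testBit i = true → ∀ j : Fin (r + r), j.val = i + 1 →
      M.IsBase (block (b ∘ σ) (b' ∘ σ') j))
    (h1 : ∀ i < r, m1.testBit i = true → ∀ j : Fin (r + r), j.val = r + i + 1 →
      M.IsBase (block (b ∘ σ) (b' ∘ σ') j))
    (hno : ∀ X ⊆ B₀ r, ∀ X' ⊆ B₀ r, ∀ V ⊆ B₁ r, ∀ V' ⊆ B₁ r, Disjoint X X' → Disjoint V V' →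
      ∀ q ∈ hs, GCh (BP M (Sum.elim b b')) (B₀ r) (B₁ r) q.1 X V →
        GCh (BP M (Sum.elim b b')) (B₀ r) (B₁ r) q.2 X' V' → False)
    (bad : ∀ c : Cx (Idx r), c.toPar = ⟨r, m0, m1, hs, [], []⟩ → False) : False := by
  have hA := base_B₀ (b' := b') hb hB
  have hA' := base_B₁ (b := b) hb' hB'
  have hP := symExch_BP M (Sum.elim b b')
  have e0 : (Finset.range r).image (nm hr σ σ') = B₀ r := by
    rw [image_nm_left hr σ σ' le_rfl, firstL_full]
  have e1 : ((Finset.range r).image fun i => nm hr σ σ' (r + i)) = B₁ r := by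
    rw [image_nm_right hr σ σ' le_rfl, firstR_full]
  refine bad ⟨⟨r, m0, m1, hs, [], []⟩, nm hr σ σ', BP M (Sum.elim b b'), nm_inj hr σ σ',
    ?_, ?_, ?_, ?_, ?_, ?_, ?_, ?_, ?_, ?_⟩ rfl
  · intro S T hS hT x hx hxT
    obtain ⟨e, he, heS, h2, h1⟩ := hP T S hT hS x hx hxT
    exact ⟨e, he, heS, h1, h2⟩
  · rw [e0]; exact hA
  · rw [e1]; exact hA'
  · intro i hi hm
    change i < r at hi
    change m0.testBit i = true at hm
    rw [e0, image_nm_left hr σ σ' (show i + 1 ≤ r by omega),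
      image_nm_right hr σ σ' (show i + 1 ≤ r by omega)]
    rcases Nat.lt_or_ge (i + 1) r with h | h
    · exact bp_lt hb hB σ σ' ⟨i + 1, by omega⟩ h (h0 i hi hm _ rfl)
    · have : i + 1 = r := by omega
      rw [this, firstL_full, firstR_full, Finset.sdiff_self, Finset.empty_union]
      exact hA'
  · intro i hi hm
    change i < r at hi
    change m1.testBit i = true at hm
    rw [e1, image_nm_left hr σ σ' (show i + 1 ≤ r by omega),
      image_nm_right hr σ σ' (show i + 1 ≤ r by omega)]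
    rcases Nat.lt_or_ge (i + 1) r with h | h
    · have := bp_ge hb hB σ σ' ⟨r + i + 1, by omega⟩ (by change r ≤ r + i + 1; omega)
        (h1 i hi hm _ rfl)
      have e : (⟨r + i + 1, by omega⟩ : Fin (r + r)).val - r = i + 1 := by
        change r + i + 1 - r = i + 1
        omega
      rw [e] at this
      exact this
    · have : i + 1 = r := by omega
      rw [this, firstL_full, firstR_full, Finset.sdiff_self, Finset.empty_union]
      exact hA
  · intro T hT
    exact absurd hT (by simp)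
  · intro q hq
    exact absurd hq (by simp)
  · rw [e0, e1]
    exact totV hP hA hA' (disj_B r)
  · rw [e0, e1]
    exact totX hP hA hA' (disj_B r)
  · rw [e0, e1]
    exact hno

/-- the pairs of lengths of chains which together give orderings -/
def hs0 : List (ℕ × ℕ) := [(3, 3), (4, 2), (5, 1), (6, 0)]

/-- One case: two disjoint chains of lengths `k` and `l`. -/
theorem one_case {α : Type*} (M : Matroid α) (b b' : Fin 7 → α)
    (hb : Function.Injective b) (hb' : Function.Injective b')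
    (hB : M.IsBase (Set.range b)) (hB' : M.IsBase (Set.range b')) (k l m1 : ℕ) (hkl : k + l ≤ 7)
    (hs : List (ℕ × ℕ))
    (hm1 : ∀ i < 7, m1.testBit i = true → (7 + i + 1) % 7 ≤ k ∨ 7 ≤ (7 + i + 1) % 7 + l)
    (hno : ∀ X ⊆ B₀ 7, ∀ X' ⊆ B₀ 7, ∀ V ⊆ B₁ 7, ∀ V' ⊆ B₁ 7, Disjoint X X' → Disjoint V V' →
      ∀ q ∈ hs, GCh (BP M (Sum.elim b b')) (B₀ 7) (B₁ 7) q.1 X V →
        GCh (BP M (Sum.elim b b')) (B₀ 7) (B₁ 7) q.2 X' V' → False)
    (bad : ∀ c : Cx (Idx 7), c.toPar = ⟨7, 127, m1, hs, [], []⟩ → False) :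
    ∀ X ⊆ B₀ 7, ∀ X' ⊆ B₀ 7, ∀ V ⊆ B₁ 7, ∀ V' ⊆ B₁ 7, Disjoint X X' → Disjoint V V' →
      GCh (BP M (Sum.elim b b')) (B₀ 7) (B₁ 7) k X V →
        GCh (BP M (Sum.elim b b')) (B₀ 7) (B₁ 7) l X' V' → False := by
  intro X hX X' hX' V hV V' hV' hXX hVV h h'
  obtain ⟨σ, σ', hσ⟩ := refine_near M b b' hb hB hB' (fun n => n ≤ k ∨ 7 ≤ n + l)
    (of_two (k := k) (l := l) hkl hb hb' hB hB' hX hX' hV hV' hXX hVV h h')
  refine no_cx (by norm_num) hb hb' hB hB' 127 m1 hs σ σ' ?_ ?_ hno bad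
  · intro i hi _ j hj
    exact hσ j (Or.inl (by omega))
  · intro i hi hm j hj
    refine hσ j (Or.inr ?_)
    rw [hj]
    exact hm1 i hi hm

/-- **Gabow's conjecture in rank seven**, from four refutations. -/
theorem gabow_seven {α : Type*} (M : Matroid α) (b b' : Fin 7 → α)
    (hb : Function.Injective b) (hb' : Function.Injective b')
    (hB : M.IsBase (Set.range b)) (hB' : M.IsBase (Set.range b'))
    (badY : ∀ c : Cx (Idx 7), c.toPar = ⟨7, 127, 31, hs0, [], []⟩ → False)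
    (badX : ∀ c : Cx (Idx 7), c.toPar = ⟨7, 127, 47, (5, 0) :: hs0, [], []⟩ → False)
    (badA : ∀ c : Cx (Idx 7), c.toPar = ⟨7, 127, 55, (4, 1) :: (5, 0) :: hs0, [], []⟩ → False)
    (badB : ∀ c : Cx (Idx 7), c.toPar = ⟨7, 127, 51, (3, 2) :: (4, 1) :: (5, 0) :: hs0, [], []⟩ →
      False) :
    ∃ σ σ' : Equiv.Perm (Fin 7), ∀ i : Fin (7 + 7), M.IsBase (block (b ∘ σ) (b' ∘ σ') i) := by
  by_contra hcon
  have h0 : ∀ X ⊆ B₀ 7, ∀ X' ⊆ B₀ 7, ∀ V ⊆ B₁ 7, ∀ V' ⊆ B₁ 7, Disjoint X X' → Disjoint V V' →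
      ∀ q ∈ hs0, GCh (BP M (Sum.elim b b')) (B₀ 7) (B₁ 7) q.1 X V →
        GCh (BP M (Sum.elim b b')) (B₀ 7) (B₁ 7) q.2 X' V' → False := by
    intro X hX X' hX' V hV V' hV' hXX hVV q hq h h'
    have hq2 : q.1 + q.2 = 6 := by
      simp only [hs0, List.mem_cons, List.not_mem_nil, or_false] at hq
      rcases hq with rfl | rfl | rfl | rfl <;> rfl
    obtain ⟨σ, σ', hσ⟩ := of_two (by omega) hb hb' hB hB' hX hX' hV hV' hXX hVV h h'
    exact hcon ⟨σ, σ', fun i => hσ i (by omega)⟩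
  have h1 := one_case M b b' hb hb' hB hB' 5 0 31 (by norm_num) _ (by
    intro i hi hm
    interval_cases i <;> simp [Nat.testBit] at hm ⊢) h0 badY
  have h2 : ∀ X ⊆ B₀ 7, ∀ X' ⊆ B₀ 7, ∀ V ⊆ B₁ 7, ∀ V' ⊆ B₁ 7, Disjoint X X' → Disjoint V V' →
      ∀ q ∈ (5, 0) :: hs0, GCh (BP M (Sum.elim b b')) (B₀ 7) (B₁ 7) q.1 X V →
        GCh (BP M (Sum.elim b b')) (B₀ 7) (B₁ 7) q.2 X' V' → False := by
    intro X hX X' hX' V hV V' hV' hXX hVV q hq h h'
    rcases List.mem_cons.mp hq with rfl | hq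
    · exact h1 X hX X' hX' V hV V' hV' hXX hVV h h'
    · exact h0 X hX X' hX' V hV V' hV' hXX hVV q hq h h'
  have h3 := one_case M b b' hb hb' hB hB' 4 1 47 (by norm_num) _ (by
    intro i hi hm
    interval_cases i <;> simp [Nat.testBit] at hm ⊢) h2 badX
  have h4 : ∀ X ⊆ B₀ 7, ∀ X' ⊆ B₀ 7, ∀ V ⊆ B₁ 7, ∀ V' ⊆ B₁ 7, Disjoint X X' → Disjoint V V' →
      ∀ q ∈ (4, 1) :: (5, 0) :: hs0, GCh (BP M (Sum.elim b b')) (B₀ 7) (B₁ 7) q.1 X V →
        GCh (BP M (Sum.elim b b')) (B₀ 7) (B₁ 7) q.2 X' V' → False := by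
    intro X hX X' hX' V hV V' hV' hXX hVV q hq h h'
    rcases List.mem_cons.mp hq with rfl | hq
    · exact h3 X hX X' hX' V hV V' hV' hXX hVV h h'
    · exact h2 X hX X' hX' V hV V' hV' hXX hVV q hq h h'
  have h5 := one_case M b b' hb hb' hB hB' 3 2 55 (by norm_num) _ (by
    intro i hi hm
    interval_cases i <;> simp [Nat.testBit] at hm ⊢) h4 badA
  have h6 : ∀ X ⊆ B₀ 7, ∀ X' ⊆ B₀ 7, ∀ V ⊆ B₁ 7, ∀ V' ⊆ B₁ 7, Disjoint X X' → Disjoint V V' →
      ∀ q ∈ (3, 2) :: (4, 1) :: (5, 0) :: hs0,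
      GCh (BP M (Sum.elim b b')) (B₀ 7) (B₁ 7) q.1 X V →
        GCh (BP M (Sum.elim b b')) (B₀ 7) (B₁ 7) q.2 X' V' → False := by
    intro X hX X' hX' V hV V' hV' hXX hVV q hq h h'
    rcases List.mem_cons.mp hq with rfl | hq
    · exact h5 X hX X' hX' V hV V' hV' hXX hVV h h'
    · exact h4 X hX X' hX' V hV V' hV' hXX hVV q hq h h'
  obtain ⟨σ, σ', hσ⟩ := start M (by norm_num) b b' hb hb' hB hB'
  refine no_cx (by norm_num) hb hb' hB hB' 127 51 _ σ σ' ?_ ?_ h6 badB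
  · intro i hi _ j hj
    exact hσ j (Or.inl (by omega))
  · intro i hi hm j hj
    refine hσ j (Or.inr ?_)
    rw [hj]
    interval_cases i
    · simp
    · simp
    · simp [Nat.testBit] at hm
    · simp [Nat.testBit] at hm
    · simp
    · simp
    · simp [Nat.testBit] at hm

/-- **Gabow's conjecture in rank at most seven**, from four refutations. -/
theorem gabow_le_seven_of {α : Type*} (M : Matroid α) {r : ℕ} (hr : r ≤ 7) (b b' : Fin r → α)
    (hb : Function.Injective b) (hb' : Function.Injective b')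
    (hB : M.IsBase (Set.range b)) (hB' : M.IsBase (Set.range b'))
    (badY : ∀ c : Cx (Idx 7), c.toPar = ⟨7, 127, 31, hs0, [], []⟩ → False)
    (badX : ∀ c : Cx (Idx 7), c.toPar = ⟨7, 127, 47, (5, 0) :: hs0, [], []⟩ → False)
    (badA : ∀ c : Cx (Idx 7), c.toPar = ⟨7, 127, 55, (4, 1) :: (5, 0) :: hs0, [], []⟩ → False)
    (badB : ∀ c : Cx (Idx 7), c.toPar = ⟨7, 127, 51, (3, 2) :: (4, 1) :: (5, 0) :: hs0, [], []⟩ →
      False) :
    ∃ σ σ' : Equiv.Perm (Fin r), ∀ i : Fin (r + r), M.IsBase (block (b ∘ σ) (b' ∘ σ') i) := by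
  rcases Nat.lt_or_ge r 7 with h | h
  · exact Pool.Agent.Gab6_h87.gabow_le_six M (by omega) b b' hb hb' hB hB'
  · obtain rfl : r = 7 := by omega
    exact gabow_seven M b b' hb hb' hB hB' badY badX badA badB

end Pool.Agent.Gab7_h87
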