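import Mathlib

/-!
# A small checker of clausal proofs, written for evaluation by the kernel

A clause is a natural number whose digits to the base `16384`, diminished by one, are the codes
of its literals; the literal with code `2 i` is the variable `i`, the literal with code `2 i + 1`
its negation. A clause is also represented by the number whose binary digits mark the codes of its
literals.
-/

set_option autoImplicit false

namespace Pool.Agent.Gab7_h87.Sat

/-- binary trees as tables -/
inductive Tr (β : Type) where
  | nil : Tr β
  | leaf : β → Tr β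
  | node : Tr β → Tr β → Tr β

/-- table lookup -/
noncomputable def Tr.get {β : Type} (d : β) (t : Tr β) : Nat → β :=
  Tr.rec (fun _ => d) (fun b _ => b)
    (fun _ _ gl gr i => cond (Nat.beq (i % 2) 0) (gl (i / 2)) (gr (i / 2))) t

/-- binary digits mark the literals of the clause `c` -/
noncomputable def mask (fuel : Nat) : Nat → Nat :=
  Nat.rec (fun _ => 0)
    (fun _ ih c => cond (Nat.beq c 0) 0
      (Nat.lor (Nat.shiftLeft 1 (Nat.sub (Nat.mod c 16384) 1)) (ih (Nat.div c 16384)))) fuel

/-- forces the evaluation of the first argument -/
noncomputable def force (n : Nat) (k : Nat → Bool) : Bool :=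
  Nat.rec (k 0) (fun m _ => k (Nat.succ m)) n

theorem force_eq (n : Nat) (k : Nat → Bool) : force n k = k n := by
  cases n <;> rfl

/-- code of the negation of a literal -/
noncomputable def neg (j : Nat) : Nat := cond (Nat.beq (Nat.mod j 2) 0) (Nat.succ j) (Nat.sub j 1)

/-- Unit propagation along the hints `h`, starting from the set `F` of falsified literals, ends in
a conflict. The digits of `h` to the base `2 ^ 32` are `i + 1 + 262144 * j`, where `i` is the
number of a clause and `j` the code of the literal that it yields. -/
noncomputable def rup (G : Nat → Nat) (lim : Nat) (fuel : Nat) : Nat → Nat → Bool :=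
  Nat.rec (fun _ _ => false)
    (fun _ ih F h =>
      force (Nat.mod h 262144) fun i => force (Nat.mod (Nat.div h 262144) 16384) fun j =>
      cond (Nat.ble i lim)
        (cond (Nat.ble i 0) false
          (force (Nat.xor (Nat.lor (mask 100 (G (Nat.sub i 1))) F) F) fun R =>
            cond (Nat.beq R 0) true
              (cond (Nat.beq R (Nat.shiftLeft 1 j))
                (force (Nat.lor F (Nat.shiftLeft 1 (neg j))) fun F' =>
                  force (Nat.div h 4294967296) fun h' => ih F' h') false)))
        false) fuel

/-- checks `cnt` clauses, the first of which has number `s` -/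
noncomputable def chk (G H : Nat → Nat) (cnt : Nat) : Nat → Bool :=
  Nat.rec (fun _ => true)
    (fun _ ih s => cond (rup G s 800 (mask 100 (G s)) (H s)) (force (Nat.succ s) ih) false) cnt

/-- the literal with code `j` is true -/
def litTrue (v : Nat → Prop) (j : Nat) : Prop := (j % 2 = 0 ∧ v (j / 2)) ∨ (j % 2 = 1 ∧ ¬ v (j / 2))

theorem litTrue_neg (v : Nat → Prop) (j : Nat) : litTrue v (neg j) ↔ ¬ litTrue v j := by
  unfold litTrue neg
  change ((bif Nat.beq (j % 2) 0 then j + 1 else j - 1) % 2 = 0 ∧ _) ∨ _ ↔ _
  change ((bif Nat.beq (j % 2) 0 then j + 1 else j - 1) % 2 = 0 ∧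
    v ((bif Nat.beq (j % 2) 0 then j + 1 else j - 1) / 2)) ∨
    ((bif Nat.beq (j % 2) 0 then j + 1 else j - 1) % 2 = 1 ∧
    ¬ v ((bif Nat.beq (j % 2) 0 then j + 1 else j - 1) / 2)) ↔ _
  rcases Nat.mod_two_eq_zero_or_one j with h | h
  · have h0 : Nat.beq (j % 2) 0 = true := by rw [h]; rfl
    have h1 : (j + 1) % 2 = 1 := by omega
    have h2 : (j + 1) / 2 = j / 2 := by omega
    rw [h0, cond_true, h, h1, h2]
    tauto
  · have h0 : Nat.beq (j % 2) 0 = false := by rw [h]; rfl
    have h1 : (j - 1) % 2 = 0 := by omega
    have h2 : (j - 1) / 2 = j / 2 := by omega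
    rw [h0, cond_false, h, h1, h2]
    tauto

/-- a literal marked by `C` is true -/
def SatM (v : Nat → Prop) (C : Nat) : Prop := ∃ j, C.testBit j = true ∧ litTrue v j

theorem testBit_one_shiftLeft' (j i : Nat) : (1 <<< j).testBit i = decide (j = i) := by
  rw [Nat.one_shiftLeft, Nat.testBit_two_pow]

theorem rup_sound (v : Nat → Prop) (G : Nat → Nat) (lim : Nat)
    (hG : ∀ i < lim, SatM v (mask 100 (G i))) :
    ∀ fuel F h, rup G lim fuel F h = true → (∀ j, F.testBit j = true → ¬ litTrue v j) → False := by
  intro fuel
  induction fuel with
  | zero => intro F h h1; exact absurd h1 (by simp [rup])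
  | succ n ih =>
    intro F h h1 hF
    change (force (Nat.mod h 262144) fun i => force (Nat.mod (Nat.div h 262144) 16384) fun j =>
      cond (Nat.ble i lim)
        (cond (Nat.ble i 0) false
          (force (Nat.xor (Nat.lor (mask 100 (G (Nat.sub i 1))) F) F) fun R =>
            cond (Nat.beq R 0) true
              (cond (Nat.beq R (Nat.shiftLeft 1 j))
                (force (Nat.lor F (Nat.shiftLeft 1 (neg j))) fun F' =>
                  force (Nat.div h 4294967296) fun h' => rup G lim n F' h') false)))
        false) = true at h1
    simp only [force_eq] at h1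
    generalize Nat.mod h 262144 = i at h1
    generalize Nat.mod (Nat.div h 262144) 16384 = j at h1
    generalize Nat.div h 4294967296 = h' at h1
    cases hb : Nat.ble i lim with
    | false => rw [hb] at h1; exact absurd h1 (by simp)
    | true =>
      rw [hb, cond_true] at h1
      cases hb2 : Nat.ble i 0 with
      | true => rw [hb2] at h1; exact absurd h1 (by simp)
      | false =>
        rw [hb2, cond_false] at h1
        have hi1 : i ≤ lim := Nat.le_of_ble_eq_true hb
        have hi0 : 0 < i := by
          by_contra hc
          have : Nat.ble i 0 = true := Nat.ble_eq_true_of_le (by omega)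
          rw [this] at hb2
          cases hb2
        obtain ⟨k, hk, hkt⟩ := hG (Nat.sub i 1) (by change i - 1 < lim; omega)
        set D := mask 100 (G (Nat.sub i 1)) with hD
        set R := Nat.xor (Nat.lor D F) F with hR
        have hkF : F.testBit k = false := by
          by_contra hc
          exact hF k (by simpa using hc) hkt
        have hRbit : ∀ i, R.testBit i = (D.testBit i && !F.testBit i) := by
          intro i
          have : R.testBit i = ((D ||| F) ^^^ F).testBit i := rfl
          rw [this, Nat.testBit_xor, Nat.testBit_or]
          cases D.testBit i <;> cases F.testBit i <;> rfl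
        have hRk : R.testBit k = true := by rw [hRbit, hk, hkF]; rfl
        cases hr : Nat.beq R 0 with
        | true =>
          have : R = 0 := Nat.eq_of_beq_eq_true hr
          rw [this] at hRk
          simp at hRk
        | false =>
          rw [hr, cond_false] at h1
          cases hp : Nat.beq R (Nat.shiftLeft 1 j) with
          | false => rw [hp] at h1; exact absurd h1 (by simp)
          | true =>
            rw [hp, cond_true] at h1
            have hp' : R = 1 <<< j := Nat.eq_of_beq_eq_true hp
            have hlog : j = k := by
              rw [hp', testBit_one_shiftLeft'] at hRk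
              simpa using hRk
            apply ih _ _ h1
            intro l hl
            have : (F ||| (1 <<< neg j)).testBit l = true := hl
            rw [Nat.testBit_or, Bool.or_eq_true] at this
            rcases this with h2 | h2
            · exact hF l h2
            · rw [testBit_one_shiftLeft'] at h2
              have h3 : neg j = l := by simpa using h2
              rw [← h3, hlog, litTrue_neg, not_not]
              exact hkt

theorem chk_sound (v : Nat → Prop) (G H : Nat → Nat) :
    ∀ cnt s, chk G H cnt s = true → (∀ i < s, SatM v (mask 100 (G i))) →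
      ∀ i < s + cnt, SatM v (mask 100 (G i)) := by
  intro cnt
  induction cnt with
  | zero => intro s _ h i hi; exact h i (by omega)
  | succ n ih =>
    intro s h1 h i hi
    change cond (rup G s 800 (mask 100 (G s)) (H s)) (force (Nat.succ s) (chk G H n)) false =
      true at h1
    rw [force_eq] at h1
    cases hr : rup G s 800 (mask 100 (G s)) (H s) with
    | false => rw [hr] at h1; exact absurd h1 (by simp)
    | true =>
      rw [hr] at h1
      simp only [cond_true] at h1
      have hs : SatM v (mask 100 (G s)) := by
        by_contra hc
        exact rup_sound v G s h 800 _ _ hr fun j hj hjt => hc ⟨j, hj, hjt⟩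
      exact ih (s + 1) h1 (fun i hi => by
        rcases Nat.lt_succ_iff_lt_or_eq.mp hi with h2 | h2
        · exact h i h2
        · rw [h2]; exact hs) i (by omega)

theorem no_sat_zero (v : Nat → Prop) (G : Nat → Nat) (i : Nat) (hi : G i = 0) :
    ¬ SatM v (mask 100 (G i)) := by
  rintro ⟨j, hj, _⟩
  have : mask 100 (G i) = 0 := by rw [hi]; rfl
  rw [this] at hj
  simp at hj

/-! ### Axiom clauses -/

/-- codes of variables -/
structure VC where
  k : Nat
  a : Nat
  b : Nat
  c : Nat

/-- comparison -/
def VC.beq (x y : VC) : Bool :=
  Nat.beq x.k y.k && (Nat.beq x.a y.a && (Nat.beq x.b y.b && Nat.beq x.c y.c))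

theorem VC.eq_of_beq {x y : VC} (h : VC.beq x y = true) : x = y := by
  simp only [VC.beq, Bool.and_eq_true] at h
  obtain ⟨h1, h2, h3, h4⟩ := h
  cases x; cases y
  simp only [VC.mk.injEq]
  exact ⟨Nat.eq_of_beq_eq_true h1, Nat.eq_of_beq_eq_true h2, Nat.eq_of_beq_eq_true h3,
    Nat.eq_of_beq_eq_true h4⟩

/-- The digits of `c` are the codes of the given literals (sign, variable), in this order. -/
noncomputable def same (vt : Nat → VC) (l : List (Bool × VC)) : Nat → Bool :=
  List.rec (fun c => Nat.beq c 0)
    (fun p _ ih c => force (Nat.mod c 16384) fun m => cond (Nat.ble m 0) false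
      (cond (Nat.beq (Nat.mod (Nat.sub m 1) 2) (cond p.1 0 1))
        (cond (VC.beq (vt (Nat.div (Nat.sub m 1) 2)) p.2) (force (Nat.div c 16384) ih) false)
        false)) l

theorem mask_succ (n c : Nat) : mask (n + 1) c =
    cond (Nat.beq c 0) 0 ((1 <<< (c % 16384 - 1)) ||| (mask n (c / 16384))) := rfl

theorem same_sound (vt : Nat → VC) (sem : VC → Prop) (l : List (Bool × VC)) :
    ∀ (c fuel : Nat), l.length ≤ fuel → same vt l c = true →
      (∃ p ∈ l, (p.1 = true ∧ sem p.2) ∨ (p.1 = false ∧ ¬ sem p.2)) →
      SatM (fun i => sem (vt i)) (mask fuel c) := by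
  induction l with
  | nil => rintro c fuel _ _ ⟨p, hp, _⟩; simp at hp
  | cons q l ih =>
    intro c fuel hf h hex
    obtain ⟨n, rfl⟩ : ∃ n, fuel = n + 1 := ⟨fuel - 1, by simp at hf; omega⟩
    change (force (Nat.mod c 16384) fun m => cond (Nat.ble m 0) false
      (cond (Nat.beq (Nat.mod (Nat.sub m 1) 2) (cond q.1 0 1))
        (cond (VC.beq (vt (Nat.div (Nat.sub m 1) 2)) q.2) (force (Nat.div c 16384) (same vt l))
          false) false)) = true at h
    simp only [force_eq] at h
    cases hb1 : Nat.ble (Nat.mod c 16384) 0 with
    | true => rw [hb1] at h; exact absurd h (by simp)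
    | false =>
      rw [hb1, cond_false] at h
      cases hb2 : Nat.beq (Nat.mod (Nat.sub (Nat.mod c 16384) 1) 2) (cond q.1 0 1) with
      | false => rw [hb2] at h; exact absurd h (by simp)
      | true =>
      rw [hb2, cond_true] at h
      cases hb3 : VC.beq (vt (Nat.div (Nat.sub (Nat.mod c 16384) 1) 2)) q.2 with
      | false => rw [hb3] at h; exact absurd h (by simp)
      | true =>
      rw [hb3, cond_true] at h
      have h1' : 0 < c % 16384 := by
        by_contra hc
        have : Nat.ble (Nat.mod c 16384) 0 = true :=
          Nat.ble_eq_true_of_le (by change c % 16384 ≤ 0; omega)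
        rw [this] at hb1
        cases hb1
      have h2' : (c % 16384 - 1) % 2 = cond q.1 0 1 := Nat.eq_of_beq_eq_true hb2
      have h3' : vt ((c % 16384 - 1) / 2) = q.2 := VC.eq_of_beq hb3
      have hc : Nat.beq c 0 = false := by
        cases hcc : Nat.beq c 0 with
        | false => rfl
        | true =>
          have := Nat.eq_of_beq_eq_true hcc
          subst this
          simp at h1'
      rw [mask_succ, hc]
      simp only [cond_false]
      obtain ⟨p, hp, hpt⟩ := hex
      rcases List.mem_cons.mp hp with rfl | hp
      · refine ⟨c % 16384 - 1, ?_, ?_⟩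
        · have : ((1 <<< (c % 16384 - 1)) ||| mask n (c / 16384)).testBit (c % 16384 - 1) = true := by
            rw [Nat.testBit_or, testBit_one_shiftLeft']
            simp
          exact this
        · unfold litTrue
          rcases hpt with ⟨h4, h5⟩ | ⟨h4, h5⟩
          · left
            rw [h4] at h2'
            exact ⟨h2', by simpa only [h3'] using h5⟩
          · right
            rw [h4] at h2'
            exact ⟨h2', by simpa only [h3'] using h5⟩
      · obtain ⟨j, hj, hjt⟩ := ih (c / 16384) n (by simp at hf; omega) h ⟨p, hp, hpt⟩
        refine ⟨j, ?_, hjt⟩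
        have : ((1 <<< (c % 16384 - 1)) ||| mask n (c / 16384)).testBit j = true := by
          rw [Nat.testBit_or, hj]
          simp
        exact this

end Pool.Agent.Gab7_h87.Sat
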