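import Pool.Agent.Gab7_h87.Orient
import Pool.Agent.Gab7_h87.CB.Bad

/-!
# Rank at most seven: at most `r - 6` blocks fail
-/

set_option autoImplicit false

namespace Pool.Agent.Gab7_h87

open Pool.Agent.Gabow87
open Pool.Agent.Gab6_h87 (bp_lt bp_ge nm nm_left nm_right nm_inj image_nm_left
  image_nm_right firstL_full firstR_full start)

/-- In rank seven there are orderings such that the blocks starting in the first basis and all
blocks starting in the second one, except those at one level `g`, are bases. -/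
theorem seven_but_one {α : Type*} (M : Matroid α) (b b' : Fin 7 → α)
    (hb : Function.Injective b) (hb' : Function.Injective b')
    (hB : M.IsBase (Set.range b)) (hB' : M.IsBase (Set.range b')) :
    ∃ (σ σ' : Equiv.Perm (Fin 7)) (g : ℕ), ∀ i : Fin (7 + 7), (i.val ≤ 7 ∨ i.val ≠ 7 + g) →
      M.IsBase (block (b ∘ σ) (b' ∘ σ') i) := by
  by_contra hcon
  have key : ∀ X ⊆ B₀ 7, ∀ X' ⊆ B₀ 7, ∀ V ⊆ B₁ 7, ∀ V' ⊆ B₁ 7, Disjoint X X' → Disjoint V V' →
      ∀ q ∈ [(3, 2), (4, 1), (5, 0), (3, 3), (4, 2), (5, 1), (6, 0)],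
      GCh (BP M (Sum.elim b b')) (B₀ 7) (B₁ 7) q.1 X V →
        GCh (BP M (Sum.elim b b')) (B₀ 7) (B₁ 7) q.2 X' V' → False := by
    intro X hX X' hX' V hV V' hV' hXX hVV q hq h h'
    have hq2 : 5 ≤ q.1 + q.2 ∧ q.1 + q.2 ≤ 7 := by
      simp only [List.mem_cons, List.not_mem_nil, or_false] at hq
      rcases hq with rfl | rfl | rfl | rfl | rfl | rfl | rfl <;> norm_num
    obtain ⟨σ, σ', hσ⟩ := refine_near M b b' hb hB hB' (fun n => n ≤ q.1 ∨ 7 ≤ n + q.2)
      (of_two hq2.2 hb hb' hB hB' hX hX' hV hV' hXX hVV h h')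
    refine hcon ⟨σ, σ', q.1 + 1, fun i hi => hσ i ?_⟩
    rcases hi with hi | hi
    · exact Or.inl hi
    · have := i.isLt
      rcases Nat.lt_or_ge i.val 7 with h7 | h7
      · exact Or.inl (by omega)
      · right
        rw [Nat.mod_eq_sub_mod h7, Nat.mod_eq_of_lt (by omega)]
        omega
  obtain ⟨σ, σ', hσ⟩ := start M (by norm_num) b b' hb hb' hB hB'
  refine no_cx (by norm_num) hb hb' hB hB' 127 51 _ σ σ' ?_ ?_ key fun c hc => CB.bad c hc
  · intro i hi _ j hj
    exact hσ j (Or.inl (by omega))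
  · intro i hi hm j hj
    refine hσ j (Or.inr ?_)
    rw [hj]
    interval_cases i
    · simp
    · simp
    · simp [Nat.testBit] at hm
    · simp [Nat.testBit] at hm
    · simp
    · simp
    · simp [Nat.testBit] at hm

/-- **Rank at most seven:** at most `r - 6` blocks are not bases. -/
theorem le_seven_but_one {α : Type*} (M : Matroid α) {r : ℕ} (hr : r ≤ 7) (b b' : Fin r → α)
    (hb : Function.Injective b) (hb' : Function.Injective b')
    (hB : M.IsBase (Set.range b)) (hB' : M.IsBase (Set.range b')) :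
    ∃ σ σ' : Equiv.Perm (Fin r),
      (∀ i : Fin (r + r), i.val ≤ r → M.IsBase (block (b ∘ σ) (b' ∘ σ') i)) ∧
      {i : Fin (r + r) | ¬ M.IsBase (block (b ∘ σ) (b' ∘ σ') i)}.ncard ≤ r - 6 := by
  rcases Nat.lt_or_ge r 7 with h | h
  · obtain ⟨σ, σ', hσ⟩ := Pool.Agent.Gab6_h87.gabow_le_six M (by omega) b b' hb hb' hB hB'
    refine ⟨σ, σ', fun i _ => hσ i, ?_⟩
    have : {i : Fin (r + r) | ¬ M.IsBase (block (b ∘ σ) (b' ∘ σ') i)} = ∅ := by
      ext i
      simpa using hσ i
    rw [this, Set.ncard_empty]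
    exact Nat.zero_le _
  · obtain rfl : r = 7 := by omega
    obtain ⟨σ, σ', g, hσ⟩ := seven_but_one M b b' hb hb' hB hB'
    refine ⟨σ, σ', fun i hi => hσ i (Or.inl hi), ?_⟩
    rw [show 7 - 6 = 1 from rfl, Set.ncard_le_one_iff]
    intro i j hi hj
    have key : ∀ i : Fin (7 + 7), ¬ M.IsBase (block (b ∘ σ) (b' ∘ σ') i) → i.val = 7 + g := by
      intro i hi
      by_contra hne
      exact hi (hσ i (Or.inr hne))
    exact Fin.ext (by rw [key i hi, key j hj])

end Pool.Agent.Gab7_h87
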