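import Pool.Agent.Gabow87.Three
import Pool.Agent.Gabow87.R.Long

/-!
# At most three elements of one basis belong to a chain of exchanges with the other basis
-/

set_option autoImplicit false

namespace Pool.Agent.Gab7_h87

open Pool.Agent.Gabow87

variable {α : Type*} [DecidableEq α] {P : Finset α → Prop} {B B' : Finset α}

theorem gch_card : ∀ (n : ℕ) (X V : Finset α), GCh P B B' n X V → X.card = n ∧ V.card = n := by
  intro n
  induction n with
  | zero => rintro X V ⟨rfl, rfl⟩; simp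
  | succ n ih =>
    rintro X V ⟨-, x, hx, v, hv, h⟩
    obtain ⟨h1, h2⟩ := ih _ _ h
    rw [Finset.card_erase_of_mem hx] at h1
    rw [Finset.card_erase_of_mem hv] at h2
    have := Finset.card_pos.mpr ⟨x, hx⟩
    have := Finset.card_pos.mpr ⟨v, hv⟩
    omega

theorem gch1 {x y : α} (h : Good P B B' {x} {y}) : GCh P B B' 1 {x} {y} :=
  ⟨h, x, by simp, y, by simp, by simp, by simp⟩

theorem gch2 {x₁ x₂ y₁ y₂ : α} (hx : x₁ ≠ x₂) (hy : y₁ ≠ y₂) (h : Good P B B' {x₁} {y₁})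
    (h' : Good P B B' {x₁, x₂} {y₁, y₂}) : GCh P B B' 2 {x₁, x₂} {y₁, y₂} := by
  refine ⟨h', x₂, by simp, y₂, by simp, ?_⟩
  rw [Finset.pair_comm, Finset.pair_comm y₁, Finset.erase_insert (by simpa using hx.symm),
    Finset.erase_insert (by simpa using hy.symm)]
  exact gch1 h

theorem gch3 {x₁ x₂ x₃ y₁ y₂ y₃ : α} (hx : x₁ ≠ x₂) (hx' : x₁ ≠ x₃) (hx'' : x₂ ≠ x₃)
    (hy : y₁ ≠ y₂) (hy' : y₁ ≠ y₃) (hy'' : y₂ ≠ y₃) (h : Good P B B' {x₁} {y₁})
    (h' : Good P B B' {x₁, x₂} {y₁, y₂}) (h'' : Good P B B' {x₁, x₂, x₃} {y₁, y₂, y₃}) :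
    GCh P B B' 3 {x₁, x₂, x₃} {y₁, y₂, y₃} := by
  refine ⟨h'', x₃, by simp, y₃, by simp, ?_⟩
  have e1 : ({x₁, x₂, x₃} : Finset α).erase x₃ = {x₁, x₂} := by
    ext t
    simp only [Finset.mem_erase, Finset.mem_insert, Finset.mem_singleton]
    grind
  have e2 : ({y₁, y₂, y₃} : Finset α).erase y₃ = {y₁, y₂} := by
    ext t
    simp only [Finset.mem_erase, Finset.mem_insert, Finset.mem_singleton]
    grind
  rw [e1, e2]
  exact gch2 hx hy h h'

/-- at most three elements of the second basis -/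
theorem gch_of_card_le (hP : SymExch P) (hB : P B) (hB' : P B') (hd : Disjoint B B')
    {V : Finset α} (hV : V ⊆ B') (h3 : V.card ≤ 3) : ∃ X ⊆ B, GCh P B B' V.card X V := by
  have hc : V.card = 0 ∨ V.card = 1 ∨ V.card = 2 ∨ V.card = 3 := by omega
  rcases hc with h | h | h | h
  · rw [h]
    exact ⟨∅, Finset.empty_subset _, rfl, Finset.card_eq_zero.mp h⟩
  · rw [h]
    obtain ⟨y, rfl⟩ := Finset.card_eq_one.mp h
    have hy : y ∈ B' := hV (by simp)
    have hyB : y ∉ B := fun h => Finset.disjoint_left.mp hd h hy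
    obtain ⟨e, he, heB, h1, h4⟩ := hP B B' hB hB' y hy hyB
    refine ⟨{e}, Finset.singleton_subset_iff.mpr he, gch1 ⟨?_, ?_⟩⟩
    · rwa [Finset.sdiff_singleton_eq_erase, Finset.union_comm, ← Finset.insert_eq]
    · rwa [Finset.sdiff_singleton_eq_erase, Finset.union_comm, ← Finset.insert_eq]
  · rw [h]
    obtain ⟨y₁, y₂, n, rfl⟩ := Finset.card_eq_two.mp h
    obtain ⟨x, hx, e, he, hxe, hg, hs⟩ :=
      pair_total hP hB hB' hd (hV (by simp : y₁ ∈ ({y₁, y₂} : Finset α)))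
        (hV (by simp : y₂ ∈ ({y₁, y₂} : Finset α))) n
    refine ⟨{x, e}, ?_, ?_⟩
    · intro t
      simp only [Finset.mem_insert, Finset.mem_singleton]
      rintro (rfl | rfl) <;> assumption
    · rcases hs with hs | hs
      · exact gch2 hxe n hs hg
      · rw [Finset.pair_comm y₁ y₂] at hg ⊢
        exact gch2 hxe n.symm hs hg
  · obtain ⟨x₁, hx1, x₂, hx2, x₃, hx3, n12, n13, n23, y₁, y₂, y₃, hYe, g1, g2, g3⟩ :=
      triple_total hP hB hB' hd hV h
    rw [h]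
    rw [hYe] at h ⊢
    obtain ⟨m12, m13, m23⟩ := distinct3 h
    refine ⟨{x₁, x₂, x₃}, ?_, gch3 n12 n13 n23 m12 m13 m23 g1 g2 g3⟩
    intro t
    simp only [Finset.mem_insert, Finset.mem_singleton]
    rintro (rfl | rfl | rfl) <;> assumption

/-- at most three elements of the first basis -/
theorem gch_of_card_le' (hP : SymExch P) (hB : P B) (hB' : P B') (hd : Disjoint B B')
    {X : Finset α} (hX : X ⊆ B) (h3 : X.card ≤ 3) : ∃ V ⊆ B', GCh P B B' X.card X V := by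
  obtain ⟨V, hV, h⟩ := gch_of_card_le hP hB' hB hd.symm hX h3
  exact ⟨V, hV, GCh.symm _ _ _ h⟩

theorem totV (hP : SymExch P) (hB : P B) (hB' : P B') (hd : Disjoint B B') :
    ∀ V ⊆ B', V.card ≤ 3 → ∃ X ⊆ B, ∃ m, GCh P B B' m X V := by
  intro V hV h3
  obtain ⟨X, hX, h⟩ := gch_of_card_le hP hB hB' hd hV h3
  exact ⟨X, hX, _, h⟩

theorem totX (hP : SymExch P) (hB : P B) (hB' : P B') (hd : Disjoint B B') :
    ∀ X ⊆ B, X.card ≤ 3 → ∃ V ⊆ B', ∃ m, GCh P B B' m X V := by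
  intro X hX h3
  obtain ⟨V, hV, h⟩ := gch_of_card_le' hP hB hB' hd hX h3
  exact ⟨V, hV, _, h⟩

end Pool.Agent.Gab7_h87
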